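import Mathlib

/-!
# The relation `r⁸ = r⁶` in the Quillen negation monoid of topological spaces

For every class `P` of continuous maps either the map `∅ → {•}` belongs to `P^r` or all maps in `P^r`
are surjective. Starting from these two cases we find that `P^rrrrrr` is the class of all isomorphisms
or the class of all maps.
-/

set_option autoImplicit false

open CategoryTheory Topology

universe u

namespace Pool.Agent.Results.MP_364315_al.NewRelation

/-- The two letters. -/
inductive Letter
  | l
  | r

open Letter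

/-- The class `P^w`, where `w` is a list of letters which are applied from left to right. -/
def negList : List Letter → MorphismProperty TopCat.{u} → MorphismProperty TopCat.{u}
  | [], P => P
  | l :: w, P => negList w P.llp
  | r :: w, P => negList w P.rlp

/-- The class `P^w`, for a word `w` in the free monoid on the two letters. -/
def neg (P : MorphismProperty TopCat.{u}) (w : FreeMonoid Letter) : MorphismProperty TopCat.{u} :=
  negList (FreeMonoid.toList w) P

/-- The relations `lrl = l` and `rlr = r`. -/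
inductive Rel : FreeMonoid Letter → FreeMonoid Letter → Prop
  | lrl : Rel (FreeMonoid.of l * FreeMonoid.of r * FreeMonoid.of l) (FreeMonoid.of l)
  | rlr : Rel (FreeMonoid.of r * FreeMonoid.of l * FreeMonoid.of r) (FreeMonoid.of r)

/-! ### Lifting properties for continuous maps -/

theorem hlp {A B X Y : TopCat.{u}} {f : A ⟶ B} {g : X ⟶ Y} (H : HasLiftingProperty f g)
    (u : C(A, X)) (v : C(B, Y)) (huv : ∀ a, g (u a) = v (f a)) :
    ∃ h : C(B, X), (∀ a, h (f a) = u a) ∧ ∀ b, g (h b) = v b := by
  have sq : CommSq (TopCat.ofHom u : A ⟶ X) f g (TopCat.ofHom v : B ⟶ Y) := ⟨by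
    ext a
    exact huv a⟩
  have := H.sq_hasLift sq
  refine ⟨sq.lift.hom, fun a => ?_, fun b => ?_⟩
  · exact congrArg (fun k : A ⟶ X => k a) sq.fac_left
  · exact congrArg (fun k : B ⟶ Y => k b) sq.fac_right

theorem hlp_of {A B X Y : TopCat.{u}} {f : A ⟶ B} {g : X ⟶ Y}
    (H : ∀ (u : C(A, X)) (v : C(B, Y)), (∀ a, g (u a) = v (f a)) →
      ∃ h : C(B, X), (∀ a, h (f a) = u a) ∧ ∀ b, g (h b) = v b) : HasLiftingProperty f g := by
  constructor
  intro u v sq
  obtain ⟨h, h1, h2⟩ := H u.hom v.hom (fun a => congrArg (fun k : A ⟶ Y => k a) sq.w)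
  constructor
  constructor
  refine ⟨TopCat.ofHom h, ?_, ?_⟩
  · ext a
    exact h1 a
  · ext b
    exact h2 b

/-! ### The classes of maps -/

/-- The empty space. -/
abbrev E0 : TopCat.{u} := TopCat.of PEmpty.{u + 1}

/-- The one-point space. -/
abbrev E1 : TopCat.{u} := TopCat.of PUnit.{u + 1}

/-- The map from the empty space to the one-point space. -/
def e : E0.{u} ⟶ E1.{u} := TopCat.ofHom ⟨PEmpty.elim, continuous_of_discreteTopology⟩

/-- The surjective maps. -/
def SurjP : MorphismProperty TopCat.{u} := fun _ _ f => Function.Surjective f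

/-- The embeddings. -/
def EmbP : MorphismProperty TopCat.{u} := fun _ _ f => IsEmbedding f

/-- The maps which have a section and such that any two points of a fibre are in the closure of a
point of the fibre. -/
def TFP : MorphismProperty TopCat.{u} := fun A B f =>
  (∃ s : C(B, A), ∀ b, f (s b) = b) ∧
    ∀ x y : A, f x = f y → ∃ z : A, f z = f x ∧ z ⤳ x ∧ z ⤳ y

/-- The maps with `T₁` fibres. -/
def T1P : MorphismProperty TopCat.{u} := fun A _ f =>
  ∀ x y : A, f x = f y → x ⤳ y → x = y

/-- The dichotomy for the classes `P^r`. -/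
theorem dichotomy (P : MorphismProperty TopCat.{u}) : P.rlp e ∨ P.rlp ≤ SurjP := by
  by_cases h : P.rlp ≤ SurjP
  · exact Or.inr h
  · left
    obtain ⟨A, B, q, hq, hns⟩ : ∃ (A B : TopCat.{u}) (q : A ⟶ B), P.rlp q ∧ ¬ SurjP q := by
      by_contra hcon
      push Not at hcon
      exact h fun A B q hq => hcon A B q hq
    have : ∃ b, ∀ a, q a ≠ b := by
      by_contra hcon
      push Not at hcon
      exact hns hcon
    obtain ⟨b, hb⟩ := this
    intro X Y f hf
    apply hlp_of
    intro u v _
    have hX : ∀ x : X, False := fun x => (u x).elim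
    have hY : ∀ y : Y, False := by
      intro y
      obtain ⟨k, -, hk⟩ := hlp (hq f hf)
        ⟨fun x => (hX x).elim, continuous_iff_continuousAt.2 fun x => (hX x).elim⟩
        (ContinuousMap.const Y b) (fun x => (hX x).elim)
      exact hb _ (hk y)
    exact ⟨⟨fun y => (hY y).elim, continuous_iff_continuousAt.2 fun y => (hY y).elim⟩,
      fun x => (hX x).elim, fun y => (hY y).elim⟩

theorem step1 {C : MorphismProperty TopCat.{u}} (h : C e) : C.rlp ≤ SurjP := by
  intro A B g hg b
  obtain ⟨k, -, hk⟩ := hlp (hg e h) ⟨PEmpty.elim, continuous_of_discreteTopology⟩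
    (ContinuousMap.const _ b) (fun x => x.elim)
  exact ⟨k PUnit.unit, hk PUnit.unit⟩

theorem step2 {C : MorphismProperty TopCat.{u}} (h : C ≤ SurjP) : EmbP ≤ C.rlp := by
  intro A B g hg X Y f hf
  have hs : Function.Surjective f := h f hf
  have he : IsEmbedding g := hg
  apply hlp_of
  intro u v huv
  choose s hs' using hs
  have hg' : ∀ y, g (u (s y)) = v y := fun y => by rw [huv, hs']
  refine ⟨⟨fun y => u (s y), ?_⟩, fun x => ?_, hg'⟩
  · rw [he.continuous_iff]
    have : (g ∘ fun y => u (s y)) = v := funext hg'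
    rw [this]
    exact v.continuous
  · apply he.injective
    show g (u (s (f x))) = g (u x)
    rw [hg', huv]

/-- A three-point space with a generic point and two closed points. -/
def V : Type u := Option (ULift.{u} Bool)

/-- The generic point. -/
def v0 : V.{u} := (none : Option (ULift.{u} Bool))

/-- The closed points. -/
def v1 (b : ULift.{u} Bool) : V.{u} := (some b : Option (ULift.{u} Bool))

theorem v1_inj : Function.Injective v1.{u} := Option.some_injective _

theorem v0_ne (b : ULift.{u} Bool) : v0.{u} ≠ v1 b := (Option.some_ne_none b).symm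

instance : TopologicalSpace V.{u} where
  IsOpen s := s.Nonempty → v0 ∈ s
  isOpen_univ _ := Set.mem_univ _
  isOpen_inter s t hs ht h := ⟨hs (h.mono Set.inter_subset_left), ht (h.mono Set.inter_subset_right)⟩
  isOpen_sUnion S hS h := by
    obtain ⟨x, s, hs, hx⟩ := h
    exact ⟨s, hs, hS s hs ⟨x, hx⟩⟩

theorem isOpen_V (s : Set V.{u}) : IsOpen s ↔ (s.Nonempty → v0 ∈ s) := Iff.rfl

/-- The inclusion of the two closed points. -/
def iV : TopCat.of (ULift.{u} Bool) ⟶ TopCat.of V.{u} :=
  TopCat.ofHom ⟨v1, continuous_of_discreteTopology⟩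

theorem emb_iV : EmbP iV.{u} := by
  have h0 : IsEmbedding v1.{u} := by
    refine ⟨⟨?_⟩, v1_inj⟩
    refine le_antisymm (continuous_iff_le_induced.1 continuous_of_discreteTopology) ?_
    intro s _
    rw [isOpen_induced_iff]
    refine ⟨insert v0 (v1 '' s), ?_, ?_⟩
    · rw [isOpen_V]
      intro _
      exact Set.mem_insert _ _
    · ext b
      constructor
      · rintro (h | ⟨b', hb', h⟩)
        · exact (v0_ne b h.symm).elim
        · exact v1_inj h ▸ hb'
      · intro h
        exact Or.inr ⟨b, h, rfl⟩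
  exact h0

theorem spec_V (b : ULift.{u} Bool) : v0.{u} ⤳ v1 b := by
  rw [specializes_iff_forall_open]
  intro s hs hb
  exact hs ⟨_, hb⟩

/-- The embedding of the empty space into `B`. -/
def e0 (B : TopCat.{u}) : E0.{u} ⟶ B := TopCat.ofHom ⟨PEmpty.elim, continuous_of_discreteTopology⟩

theorem emb_e0 (B : TopCat.{u}) : EmbP (e0 B) := by
  refine ⟨⟨?_⟩, fun x => x.elim⟩
  exact Subsingleton.elim _ _

theorem step3 {C : MorphismProperty TopCat.{u}} (h : EmbP ≤ C) : C.rlp ≤ TFP := by
  intro A B g hg
  constructor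
  · obtain ⟨k, -, hk⟩ := hlp (hg (e0 B) (h _ (emb_e0 B)))
      ⟨PEmpty.elim, continuous_of_discreteTopology⟩ (ContinuousMap.id B) (fun x => x.elim)
    exact ⟨k, hk⟩
  · intro x y hxy
    obtain ⟨k, hk1, hk⟩ := hlp (hg iV (h _ emb_iV))
      ⟨fun b => if b.down then x else y, continuous_of_discreteTopology⟩
      (ContinuousMap.const _ (g x)) (by
        rintro ⟨b⟩
        cases b
        · exact hxy.symm
        · rfl)
    have hs : ∀ b, k v0 ⤳ k (v1 b) := fun b => (spec_V b).map k.continuous
    have h1 : k (v1 ⟨true⟩) = x := hk1 ⟨true⟩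
    have h2 : k (v1 ⟨false⟩) = y := hk1 ⟨false⟩
    exact ⟨k v0, hk _, h1 ▸ hs ⟨true⟩, h2 ▸ hs ⟨false⟩⟩

theorem step4 {C : MorphismProperty TopCat.{u}} (h : C ≤ TFP) : T1P ≤ C.rlp := by
  intro A B g hg X Y f hf
  obtain ⟨⟨s, hs⟩, hz⟩ := h f hf
  apply hlp_of
  intro u v huv
  refine ⟨u.comp s, fun x => ?_, fun y => ?_⟩
  · obtain ⟨z, hz1, hz2, hz3⟩ := hz (s (f x)) x (hs _)
    have hzx : f z = f x := hz1.trans (hs _)
    have h1 : u z = u (s (f x)) := hg _ _ (by rw [huv, huv, hz1]) (hz2.map u.continuous)
    have h2 : u z = u x := hg _ _ (by rw [huv, huv, hzx]) (hz3.map u.continuous)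
    exact h1.symm.trans h2
  · show g (u (s y)) = v y
    rw [huv, hs]

/-- The isomorphisms. -/
abbrev Iso : MorphismProperty TopCat.{u} := MorphismProperty.isomorphisms _

/-- The map from the discrete two-point space to the one-point space. -/
def d2 : TopCat.of (ULift.{u} Bool) ⟶ E1.{u} :=
  TopCat.ofHom ⟨fun _ => PUnit.unit, continuous_of_discreteTopology⟩

theorem isIso_of_self {A B : TopCat.{u}} (g : A ⟶ B) (h : HasLiftingProperty g g) : IsIso g := by
  have sq : CommSq (𝟙 A) g g (𝟙 B) := ⟨by simp⟩
  have := h.sq_hasLift sq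
  exact ⟨sq.lift, sq.fac_left, sq.fac_right⟩

theorem step5 {C : MorphismProperty TopCat.{u}} (h : T1P ≤ C) : C.rlp = Iso := by
  apply le_antisymm
  · intro A B g hg
    have hsurj : Function.Surjective g :=
      step1 (C := C) (h _ (fun x => x.elim)) g hg
    have hinj : Function.Injective g := by
      intro x y hxy
      obtain ⟨k, hk1, -⟩ := hlp (hg d2 (h _ (fun a b _ hab => hab.eq)))
        ⟨fun b => if b.down then x else y, continuous_of_discreteTopology⟩
        (ContinuousMap.const _ (g x)) (by
          rintro ⟨b⟩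
          cases b
          · exact hxy.symm
          · rfl)
      have h1 : k PUnit.unit = x := hk1 ⟨true⟩
      have h2 : k PUnit.unit = y := hk1 ⟨false⟩
      exact h1.symm.trans h2
    exact isIso_of_self g (hg g (h g fun a b hab _ => hinj hab))
  · intro A B g hg
    have : IsIso g := hg
    exact MorphismProperty.rlp_of_isIso C g

theorem iso_rlp : Iso.{u}.rlp = ⊤ := by
  apply le_antisymm le_top
  intro A B g _ X Y f hf
  have : IsIso f := hf
  infer_instance

theorem top_rlp : (⊤ : MorphismProperty TopCat.{u}).rlp = Iso := step5 le_top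

/-- `P^rrrrrrrr = P^rrrrrr` for all classes `P` of continuous maps. -/
theorem rlp8 (P : MorphismProperty TopCat.{u}) :
    P.rlp.rlp.rlp.rlp.rlp.rlp.rlp.rlp = P.rlp.rlp.rlp.rlp.rlp.rlp := by
  rcases dichotomy P with h | h
  · rw [step5 (step4 (step3 (step2 (step1 h)))), iso_rlp, top_rlp]
  · rw [step5 (step4 (step3 (step2 h))), iso_rlp, top_rlp, iso_rlp]

/-- The words `r⁸` and `r⁶` are distinct in the monoid presented by `lrl = l` and `rlr = r`. -/
theorem mk_ne : PresentedMonoid.mk Rel (FreeMonoid.of r ^ 8) ≠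
    PresentedMonoid.mk Rel (FreeMonoid.of r ^ 6) := by
  intro h
  let φ : Letter → Multiplicative ℤ := fun a =>
    match a with
    | l => Multiplicative.ofAdd (-1)
    | r => Multiplicative.ofAdd 1
  have hφ : ∀ a b : FreeMonoid Letter, Rel a b → FreeMonoid.lift φ a = FreeMonoid.lift φ b := by
    rintro _ _ (_ | _)
    · rfl
    · rfl
  have h1 := congrArg (PresentedMonoid.lift φ hφ) h
  have h2 : ∀ n : ℕ, PresentedMonoid.lift φ hφ (PresentedMonoid.mk Rel (FreeMonoid.of r ^ n)) =
      Multiplicative.ofAdd (1 : ℤ) ^ n := by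
    intro n
    show FreeMonoid.lift φ _ = _
    rw [map_pow]
    rfl
  rw [h2, h2] at h1
  revert h1
  decide

/-- **Main result.** The Quillen negation monoid of topological spaces satisfies the relation
`r⁸ = r⁶`, which does not follow from `lrl = l` and `rlr = r`. -/
theorem result :
    (∀ P : MorphismProperty TopCat.{u},
      neg P (FreeMonoid.of r ^ 8) = neg P (FreeMonoid.of r ^ 6)) ∧
    PresentedMonoid.mk Rel (FreeMonoid.of r ^ 8) ≠ PresentedMonoid.mk Rel (FreeMonoid.of r ^ 6) :=
  ⟨rlp8, mk_ne⟩

end Pool.Agent.Results.MP_364315_al.NewRelation
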